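import Mathlib
import Pool.Agent.H706R2.NonConc5

set_option autoImplicit false

open MeasureTheory Real Filter

namespace Pool.Agent.H261R2.FU

/-- The non-concentration theorem of helper706. -/
theorem nonconc : ∀ p q : ℕ, 2 ≤ p → 2 ≤ q → Irrational (Real.log (p : ℝ) / Real.log (q : ℝ)) →
      ∃ κ : ℝ, 0 < κ ∧ κ < 1 ∧ (Nat.Coprime p q → κ = 2 - Real.log 4 / Real.log 3) ∧
        ∃ C : ℝ, ∀ μ : Measure UnitAddCircle, IsProbabilityMeasure μ →
          MeasurePreserving (fun x : UnitAddCircle => p • x) μ μ →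
          MeasurePreserving (fun x : UnitAddCircle => q • x) μ μ →
          ∀ t : ℝ, 1 ≤ t →
            μ.real {x : UnitAddCircle | Real.exp (-t) ≤ ‖x‖} ≤
              C * t ^ κ * μ.real {x : UnitAddCircle | 1 / (1 + max (p : ℝ) (q : ℝ)) ≤ ‖x‖} := by
  intro p q hp hq hirr
  set r : ℝ := 1 / (1 + max (p : ℝ) (q : ℝ)) with hr
  have hmax : 0 < 1 + max (p : ℝ) (q : ℝ) := by positivity
  have hrp : ((p : ℝ) + 1) * r ≤ 1 := by
    rw [hr, mul_one_div, div_le_one hmax]
    have := le_max_left (p : ℝ) (q : ℝ)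
    linarith
  have hrq : ((q : ℝ) + 1) * r ≤ 1 := by
    rw [hr, mul_one_div, div_le_one hmax]
    have := le_max_right (p : ℝ) (q : ℝ)
    linarith
  have hlq : 0 < Real.log q := Real.log_pos (by exact_mod_cast (by omega : 1 < q))
  have hlp : 0 < Real.log p := Real.log_pos (by exact_mod_cast (by omega : 1 < p))
  have hlt : ∀ C : ℕ, 2 ≤ C → 0 < 2 - Real.log (C + 1) / Real.log C ∧
      2 - Real.log (C + 1) / Real.log C < 1 := by
    intro C hC
    have hCR : (2 : ℝ) ≤ C := by exact_mod_cast hC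
    have h1 : 0 < Real.log (C : ℝ) := Real.log_pos (by linarith)
    have h2 : Real.log (C : ℝ) < Real.log (C + 1) := Real.log_lt_log (by linarith) (by linarith)
    have h3 : 1 < Real.log (C + 1) / Real.log C := by
      rw [lt_div_iff₀ h1]; linarith
    have h4 : Real.log ((C : ℝ) + 1) < 2 * Real.log C := by
      have h5 : 2 * Real.log (C : ℝ) = Real.log ((C : ℝ) ^ 2) := by rw [Real.log_pow]; norm_num
      rw [h5]
      apply Real.log_lt_log (by linarith)
      nlinarith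
    have h5 : Real.log (C + 1) / Real.log C < 2 := by
      rw [div_lt_iff₀ h1]; exact h4
    exact ⟨by linarith, by linarith⟩
  by_cases hco : Nat.Coprime p q
  · have hsc := Pool.Agent.H706R2.scales_coprime hp hq hco hrp hrq
    obtain ⟨D, hD⟩ := Pool.Agent.H706R2.main_of_scales hp hq hrp (by norm_num)
      (by linarith) hsc
    have e : (2 : ℝ) - Real.log (((3 : ℕ) : ℝ) + 1) / Real.log ((3 : ℕ) : ℝ)
        = 2 - Real.log 4 / Real.log 3 := by norm_num
    refine ⟨2 - Real.log 4 / Real.log 3, ?_, ?_, fun _ => rfl, D, ?_⟩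
    · rw [← e]; exact (hlt 3 (by norm_num)).1
    · rw [← e]; exact (hlt 3 (by norm_num)).2
    · intro μ h1 h2 h3 t ht
      rw [← e]
      exact hD μ h1 h2 h3 t ht
  · obtain ⟨C, c, hC, hc, hsc⟩ := Pool.Agent.H706R2.scales_general hp hq hirr hrp hrq
    obtain ⟨D, hD⟩ := Pool.Agent.H706R2.main_of_scales hp hq hrp (by omega) hc.le hsc
    exact ⟨2 - Real.log (C + 1) / Real.log C, (hlt C (by omega)).1, (hlt C (by omega)).2,
      fun h => absurd h hco, D, hD⟩

lemma nsmul_coe (n : ℕ) (y : ℝ) : n • (y : UnitAddCircle) = ((n * y : ℝ) : UnitAddCircle) := by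
  rw [← AddCircle.coe_nsmul, nsmul_eq_mul]

lemma norm_coe_eq (y : ℝ) : ‖(y : UnitAddCircle)‖ = |y - round y| := by
  rw [UnitAddCircle.norm_eq]

/-- the points which are rational -/
def Rat' : Set UnitAddCircle := Set.range (fun r : ℚ => ((r : ℝ) : UnitAddCircle))

lemma rat_countable : Rat'.Countable := Set.countable_range _

/-- the rigidity of good approximations -/
lemma rational_of_close (n : ℕ → ℕ) (N : ℕ → ℕ) (k0 : ℕ)
    (hN1 : ∀ k, 2 ^ k ≤ N k) (hN2 : ∀ k, N k < 2 ^ (k + 1))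
    (hn1 : ∀ k, 1 ≤ n k) (hn2 : ∀ k, n k ≤ 2 ^ N k) (x : UnitAddCircle)
    (hx : ∀ k, k0 ≤ k → ‖n k • x‖ < Real.exp (-(5 * N k))) : x ∈ Rat' := by
  obtain ⟨y, rfl⟩ := QuotientAddGroup.mk_surjective x
  change ∀ k, k0 ≤ k → ‖n k • ((y : ℝ) : UnitAddCircle)‖ < _ at hx
  set m : ℕ → ℤ := fun k => round ((n k : ℝ) * y) with hm
  have h1 : ∀ k, k0 ≤ k → |(n k : ℝ) * y - m k| < Real.exp (-(5 * N k)) := by
    intro k hk
    have := hx k hk
    rwa [nsmul_coe, norm_coe_eq] at this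
  have hNpos : ∀ k, 1 ≤ N k := fun k => le_trans (Nat.one_le_two_pow) (hN1 k)
  have he16 : (16 : ℝ) * Real.exp (-5) < 1 / 2 := by
    have h2 : (2.7 : ℝ) < Real.exp 1 := lt_trans (by norm_num) Real.exp_one_gt_d9
    have h3 : Real.exp 5 = Real.exp 1 ^ 5 := by rw [← Real.exp_nat_mul]; norm_num
    have h4 : (32 : ℝ) < Real.exp 5 := by
      rw [h3]
      calc (32 : ℝ) < 2.7 ^ 5 := by norm_num
        _ ≤ Real.exp 1 ^ 5 := by gcongr
    rw [Real.exp_neg]
    rw [← div_eq_mul_inv, div_lt_div_iff₀ (Real.exp_pos _) (by norm_num)]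
    linarith
  have hstep : ∀ k, k0 ≤ k → m k * (n (k + 1) : ℤ) = m (k + 1) * (n k : ℤ) := by
    intro k hk
    have a1 := h1 k hk
    have a2 := h1 (k + 1) (by omega)
    have b1 : N (k + 1) ≤ 4 * N k := by
      have := hN2 (k + 1)
      have h5 := hN1 k
      have : (2 : ℕ) ^ (k + 1 + 1) = 4 * 2 ^ k := by ring
      omega
    have b2 : N k ≤ N (k + 1) := by
      have h5 := hN1 (k + 1)
      have h6 := hN2 k
      omega
    have c1 : ((n (k + 1) : ℕ) : ℝ) ≤ 16 ^ N k := by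
      have : ((n (k + 1) : ℕ) : ℝ) ≤ 2 ^ N (k + 1) := by exact_mod_cast hn2 (k + 1)
      refine this.trans ?_
      calc (2 : ℝ) ^ N (k + 1) ≤ 2 ^ (4 * N k) := pow_le_pow_right₀ (by norm_num) b1
        _ = 16 ^ N k := by rw [pow_mul]; norm_num
    have c2 : ((n k : ℕ) : ℝ) ≤ 16 ^ N k := by
      have : ((n k : ℕ) : ℝ) ≤ 2 ^ N k := by exact_mod_cast hn2 k
      refine this.trans ?_
      exact pow_le_pow_left₀ (by norm_num) (by norm_num) _
    have d1 : (16 : ℝ) ^ N k * Real.exp (-(5 * N k)) < 1 / 2 := by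
      have e1 : Real.exp (-(5 * (N k : ℝ))) = Real.exp (-5) ^ N k := by
        rw [← Real.exp_nat_mul]; congr 1; ring
      rw [e1, ← mul_pow]
      calc (16 * Real.exp (-5)) ^ N k ≤ (16 * Real.exp (-5)) ^ 1 :=
            pow_le_pow_of_le_one (by positivity) (by linarith) (hNpos k)
        _ < 1 / 2 := by rw [pow_one]; exact he16
    have d2 : Real.exp (-(5 * (N (k + 1) : ℝ))) ≤ Real.exp (-(5 * (N k : ℝ))) := by
      apply Real.exp_le_exp.mpr
      have : (N k : ℝ) ≤ N (k + 1) := by exact_mod_cast b2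
      linarith
    have key : |((m k * (n (k + 1) : ℤ) - m (k + 1) * (n k : ℤ) : ℤ) : ℝ)| < 1 := by
      push_cast
      have e2 : (m k : ℝ) * (n (k + 1) : ℝ) - m (k + 1) * (n k : ℝ)
          = -(((n k : ℝ) * y - m k) * n (k + 1)) + ((n (k + 1) : ℝ) * y - m (k + 1)) * n k := by
        ring
      rw [e2]
      refine lt_of_le_of_lt (abs_add_le _ _) ?_
      rw [abs_neg, abs_mul, abs_mul, Nat.abs_cast, Nat.abs_cast]
      have f1 : |(n k : ℝ) * y - m k| * (n (k + 1) : ℝ) ≤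
          Real.exp (-(5 * (N k : ℝ))) * 16 ^ N k :=
        mul_le_mul a1.le c1 (by positivity) (Real.exp_pos _).le
      have f2 : |(n (k + 1) : ℝ) * y - m (k + 1)| * (n k : ℝ) ≤
          Real.exp (-(5 * (N k : ℝ))) * 16 ^ N k :=
        mul_le_mul (a2.le.trans d2) c2 (by positivity) (Real.exp_pos _).le
      linarith
    have : (m k * (n (k + 1) : ℤ) - m (k + 1) * (n k : ℤ) : ℤ) = 0 := by
      by_contra hne
      have h9 : (1 : ℤ) ≤ |m k * (n (k + 1) : ℤ) - m (k + 1) * (n k : ℤ)| :=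
        Int.one_le_abs hne
      have h10 : (1 : ℝ) ≤ |((m k * (n (k + 1) : ℤ) - m (k + 1) * (n k : ℤ) : ℤ) : ℝ)| := by
        exact_mod_cast h9
      linarith
    linarith
  have hq : ∀ k, k0 ≤ k → (m k : ℝ) / n k = m k0 / n k0 := by
    intro k hk
    induction k, hk using Nat.le_induction with
    | base => rfl
    | succ k hk ih =>
      rw [← ih]
      have h2 := hstep k hk
      have h3 : (m k : ℝ) * (n (k + 1) : ℝ) = m (k + 1) * (n k : ℝ) := by exact_mod_cast h2
      have p1 : (0 : ℝ) < n k := by exact_mod_cast hn1 k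
      have p2 : (0 : ℝ) < n (k + 1) := by exact_mod_cast hn1 (k + 1)
      rw [div_eq_div_iff p2.ne' p1.ne']
      linarith
  have hy : y = (m k0 : ℝ) / n k0 := by
    by_contra hne
    have hpos : 0 < |y - (m k0 : ℝ) / n k0| := abs_pos.mpr (sub_ne_zero.mpr hne)
    have hlim : Tendsto (fun k : ℕ => Real.exp (-(k : ℝ))) atTop (nhds 0) :=
      Real.tendsto_exp_neg_atTop_nhds_zero.comp tendsto_natCast_atTop_atTop
    obtain ⟨k, hk1, hk2⟩ := ((hlim.eventually (gt_mem_nhds hpos)).and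
      (eventually_ge_atTop k0)).exists
    have h2 := h1 k hk2
    have p1 : (1 : ℝ) ≤ n k := by exact_mod_cast hn1 k
    have h3 : |y - (m k0 : ℝ) / n k0| ≤ |(n k : ℝ) * y - m k| := by
      rw [← hq k hk2]
      have e : (n k : ℝ) * y - m k = n k * (y - (m k : ℝ) / n k) := by
        field_simp
      rw [e, abs_mul, Nat.abs_cast]
      nlinarith [abs_nonneg (y - (m k : ℝ) / n k)]
    have h4 : Real.exp (-(5 * (N k : ℝ))) ≤ Real.exp (-(k : ℝ)) := by
      apply Real.exp_le_exp.mpr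
      have : k < 2 ^ k := Nat.lt_two_pow_self
      have h5 : k ≤ N k := by have := hN1 k; omega
      have h6 : (k : ℝ) ≤ N k := by exact_mod_cast h5
      have h7 : (0 : ℝ) ≤ N k := Nat.cast_nonneg _
      linarith
    linarith
  refine ⟨(m k0 : ℚ) / n k0, ?_⟩
  simp only
  push_cast
  rw [← hy]

end Pool.Agent.H261R2.FU
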