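import Mathlib
import Pool.Agent.H261R2.FU.Dir

set_option autoImplicit false

open MeasureTheory Real Filter

namespace Pool.Agent.H261R2.FU

lemma mp_nsmul {μ : Measure UnitAddCircle} {p : ℕ}
    (h : MeasurePreserving (fun x : UnitAddCircle => p • x) μ μ) (n : ℕ) :
    MeasurePreserving (fun x : UnitAddCircle => p • x)
      (μ.map (fun x : UnitAddCircle => n • x)) (μ.map (fun x : UnitAddCircle => n • x)) := by
  have hn : Measurable (fun x : UnitAddCircle => n • x) := by fun_prop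
  refine ⟨by fun_prop, ?_⟩
  rw [Measure.map_map h.measurable hn]
  have e : (fun x : UnitAddCircle => p • x) ∘ (fun x : UnitAddCircle => n • x)
      = (fun x : UnitAddCircle => n • x) ∘ (fun x : UnitAddCircle => p • x) := by
    funext x
    simp only [Function.comp]
    rw [smul_smul, smul_smul, mul_comm]
  rw [e, ← Measure.map_map hn h.measurable, h.map_eq]

lemma chebyshev (μ : Measure UnitAddCircle) [IsProbabilityMeasure μ] (n : ℕ) {r : ℝ} (hr : 0 < r) :
    μ.real {x : UnitAddCircle | r ≤ ‖n • x‖} ≤ r⁻¹ ^ 2 * ∫ x, ‖n • x‖ ^ 2 ∂μ := by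
  have hc : Continuous (fun x : UnitAddCircle => ‖n • x‖ ^ 2) := by fun_prop
  have hint : Integrable (fun x : UnitAddCircle => ‖n • x‖ ^ 2) μ :=
    hc.integrable_of_hasCompactSupport (HasCompactSupport.of_compactSpace _)
  have h1 := mul_meas_ge_le_integral_of_nonneg (μ := μ) (f := fun x : UnitAddCircle => ‖n • x‖ ^ 2)
    (Filter.Eventually.of_forall fun x => by positivity) hint (r ^ 2)
  have h2 : {x : UnitAddCircle | r ≤ ‖n • x‖} ⊆ {x : UnitAddCircle | r ^ 2 ≤ ‖n • x‖ ^ 2} := by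
    intro x hx
    exact pow_le_pow_left₀ hr.le hx 2
  have h3 : μ.real {x : UnitAddCircle | r ≤ ‖n • x‖} ≤
      μ.real {x : UnitAddCircle | r ^ 2 ≤ ‖n • x‖ ^ 2} := measureReal_mono h2
  have hr2 : 0 < r ^ 2 := by positivity
  calc μ.real {x : UnitAddCircle | r ≤ ‖n • x‖}
      = r⁻¹ ^ 2 * (r ^ 2 * μ.real {x : UnitAddCircle | r ≤ ‖n • x‖}) := by
        field_simp
    _ ≤ r⁻¹ ^ 2 * ∫ x, ‖n • x‖ ^ 2 ∂μ := by
        apply mul_le_mul_of_nonneg_left _ (by positivity)
        exact (mul_le_mul_of_nonneg_left h3 hr2.le).trans h1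

theorem diverges {p q : ℕ} (hp : 2 ≤ p) {κ C : ℝ}
    (hC : ∀ μ : Measure UnitAddCircle, IsProbabilityMeasure μ →
          MeasurePreserving (fun x : UnitAddCircle => p • x) μ μ →
          MeasurePreserving (fun x : UnitAddCircle => q • x) μ μ →
          ∀ t : ℝ, 1 ≤ t →
            μ.real {x : UnitAddCircle | Real.exp (-t) ≤ ‖x‖} ≤
              C * t ^ κ * μ.real {x : UnitAddCircle | 1 / (1 + max (p : ℝ) (q : ℝ)) ≤ ‖x‖})
    (μ : Measure UnitAddCircle) [IsProbabilityMeasure μ]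
    (hμp : MeasurePreserving (fun x : UnitAddCircle => p • x) μ μ)
    (hμq : MeasurePreserving (fun x : UnitAddCircle => q • x) μ μ)
    (hat : ∀ x : UnitAddCircle, μ {x} = 0)
    (n : ℕ → ℕ) (hn : ∀ N, 1 ≤ n N ∧ n N ≤ 2 ^ N) :
    ¬ Summable (fun N : ℕ => (N : ℝ) ^ (κ - 1) * ∫ x, ‖n N • x‖ ^ 2 ∂μ) := by
  intro hsum
  set d : ℕ → ℝ := fun N => ∫ x, ‖n N • x‖ ^ 2 ∂μ with hd
  have hd0 : ∀ N, 0 ≤ d N := fun N => integral_nonneg fun x => by positivity
  set F : ℕ → ℝ := fun N => (N : ℝ) ^ κ * d N with hF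
  have hF0 : ∀ N, 0 ≤ F N := fun N => mul_nonneg (Real.rpow_nonneg (Nat.cast_nonneg _) _) (hd0 N)
  -- the best scale in each dyadic block
  have hex : ∀ k : ℕ, ∃ N ∈ Finset.Ico (2 ^ k : ℕ) (2 ^ (k + 1) : ℕ),
      ∀ M ∈ Finset.Ico (2 ^ k : ℕ) (2 ^ (k + 1) : ℕ), F N ≤ F M := by
    intro k
    apply Finset.exists_min_image
    refine ⟨2 ^ k, ?_⟩
    rw [Finset.mem_Ico]
    exact ⟨le_rfl, Nat.pow_lt_pow_right (by norm_num) (by omega)⟩
  choose N hN hNmin using hex
  have hN1 : ∀ k, 2 ^ k ≤ N k := fun k => (Finset.mem_Ico.mp (hN k)).1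
  have hN2 : ∀ k, N k < 2 ^ (k + 1) := fun k => (Finset.mem_Ico.mp (hN k)).2
  have hblock : ∀ k, F (N k) ≤ 2 * ∑ M ∈ Finset.Ico (2 ^ k : ℕ) (2 ^ (k + 1) : ℕ),
      (M : ℝ) ^ (κ - 1) * d M := by
    intro k
    have h1 : ∀ M ∈ Finset.Ico (2 ^ k : ℕ) (2 ^ (k + 1) : ℕ),
        ((2 : ℝ) ^ (k + 1))⁻¹ * F (N k) ≤ (M : ℝ) ^ (κ - 1) * d M := by
      intro M hM
      have hM' := Finset.mem_Ico.mp hM
      have hMpos : 0 < M := lt_of_lt_of_le (by positivity) hM'.1
      have hMR : (0 : ℝ) < M := by exact_mod_cast hMpos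
      have e1 : (M : ℝ) ^ (κ - 1) * d M = (M : ℝ)⁻¹ * F M := by
        rw [hF]
        simp only
        rw [Real.rpow_sub hMR, Real.rpow_one]
        field_simp
      rw [e1]
      have h2 : ((2 : ℝ) ^ (k + 1))⁻¹ ≤ (M : ℝ)⁻¹ := by
        apply inv_anti₀ hMR
        exact_mod_cast hM'.2.le
      exact mul_le_mul h2 (hNmin k M hM) (hF0 _) (by positivity)
    have h3 := Finset.sum_le_sum h1
    rw [Finset.sum_const, Nat.card_Ico, nsmul_eq_mul] at h3
    have e2 : ((2 ^ (k + 1) - 2 ^ k : ℕ) : ℝ) = 2 ^ k := by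
      have : 2 ^ (k + 1) - 2 ^ k = 2 ^ k := by
        rw [pow_succ]; omega
      rw [this]; push_cast; ring
    rw [e2] at h3
    have e3 : (2 : ℝ) ^ k * (((2 : ℝ) ^ (k + 1))⁻¹ * F (N k)) = F (N k) / 2 := by
      rw [pow_succ]
      field_simp
    rw [e3] at h3
    linarith
  have hsumF : Summable (fun k => F (N k)) := by
    refine Summable.of_nonneg_of_le (fun k => hF0 _) hblock ?_
    apply Summable.mul_left
    have hf0 : ∀ M : ℕ, 0 ≤ (M : ℝ) ^ (κ - 1) * d M := fun M =>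
      mul_nonneg (Real.rpow_nonneg (Nat.cast_nonneg _) _) (hd0 M)
    apply summable_of_sum_range_le (c := ∑' M : ℕ, (M : ℝ) ^ (κ - 1) * d M)
    · intro k
      exact Finset.sum_nonneg fun M _ => hf0 M
    · intro K
      have e4 : ∑ k ∈ Finset.range K, ∑ M ∈ Finset.Ico (2 ^ k : ℕ) (2 ^ (k + 1) : ℕ),
          (M : ℝ) ^ (κ - 1) * d M = ∑ M ∈ Finset.Ico (2 ^ 0 : ℕ) (2 ^ K : ℕ), (M : ℝ) ^ (κ - 1) * d M := by
        induction K with
        | zero => simp
        | succ K ih =>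
          rw [Finset.sum_range_succ, ih, Finset.sum_Ico_consecutive]
          · exact Nat.pow_le_pow_right (by norm_num) (by omega)
          · exact Nat.pow_le_pow_right (by norm_num) (by omega)
      rw [e4]
      exact hsum.sum_le_tsum _ (fun M _ => hf0 M)
  -- probability that the scale is not covered
  set r : ℝ := 1 / (1 + max (p : ℝ) (q : ℝ)) with hr
  have hr0 : 0 < r := by positivity
  have hbound : ∀ k, μ.real {x : UnitAddCircle | Real.exp (-(5 * (N k : ℝ))) ≤ ‖n (N k) • x‖} ≤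
      (|C| * 5 ^ κ * r⁻¹ ^ 2) * F (N k) := by
    intro k
    set ν : Measure UnitAddCircle := μ.map (fun x : UnitAddCircle => n (N k) • x) with hν
    have hmeas : Measurable (fun x : UnitAddCircle => n (N k) • x) := by fun_prop
    have hνp : IsProbabilityMeasure ν := Measure.isProbabilityMeasure_map hmeas.aemeasurable
    have hNk : (1 : ℝ) ≤ N k := by
      exact_mod_cast le_trans Nat.one_le_two_pow (hN1 k)
    have h1 := hC ν hνp (mp_nsmul hμp _) (mp_nsmul hμq _) (5 * (N k : ℝ)) (by linarith)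
    have e1 : ν.real {x : UnitAddCircle | Real.exp (-(5 * (N k : ℝ))) ≤ ‖x‖} =
        μ.real {x : UnitAddCircle | Real.exp (-(5 * (N k : ℝ))) ≤ ‖n (N k) • x‖} := by
      rw [hν, map_measureReal_apply hmeas (Pool.Agent.H706R2.measurable_norm_set _)]
      rfl
    have e2 : ν.real {x : UnitAddCircle | r ≤ ‖x‖} =
        μ.real {x : UnitAddCircle | r ≤ ‖n (N k) • x‖} := by
      rw [hν, map_measureReal_apply hmeas (Pool.Agent.H706R2.measurable_norm_set _)]
      rfl
    rw [e1, e2] at h1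
    have h2 := chebyshev μ (n (N k)) hr0
    have h3 : (5 * (N k : ℝ)) ^ κ = 5 ^ κ * (N k : ℝ) ^ κ :=
      Real.mul_rpow (by norm_num) (by linarith)
    have hNκ : 0 ≤ (N k : ℝ) ^ κ := Real.rpow_nonneg (by linarith) _
    have h5κ : (0 : ℝ) ≤ 5 ^ κ := Real.rpow_nonneg (by norm_num) _
    calc μ.real {x : UnitAddCircle | Real.exp (-(5 * (N k : ℝ))) ≤ ‖n (N k) • x‖}
        ≤ C * (5 * (N k : ℝ)) ^ κ * μ.real {x : UnitAddCircle | r ≤ ‖n (N k) • x‖} := h1
      _ ≤ |C| * (5 * (N k : ℝ)) ^ κ * μ.real {x : UnitAddCircle | r ≤ ‖n (N k) • x‖} := by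
          apply mul_le_mul_of_nonneg_right _ measureReal_nonneg
          apply mul_le_mul_of_nonneg_right (le_abs_self _)
          exact Real.rpow_nonneg (by linarith) _
      _ ≤ |C| * (5 * (N k : ℝ)) ^ κ * (r⁻¹ ^ 2 * d (N k)) := by
          apply mul_le_mul_of_nonneg_left h2
          exact mul_nonneg (abs_nonneg _) (Real.rpow_nonneg (by linarith) _)
      _ = (|C| * 5 ^ κ * r⁻¹ ^ 2) * F (N k) := by
          rw [h3, hF]; ring
  set A : ℕ → Set UnitAddCircle := fun k =>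
    {x : UnitAddCircle | Real.exp (-(5 * (N k : ℝ))) ≤ ‖n (N k) • x‖} with hA
  have hsumA : Summable (fun k => μ.real (A k)) :=
    Summable.of_nonneg_of_le (fun k => measureReal_nonneg) hbound (hsumF.mul_left _)
  have htsum : ∑' k, μ (A k) ≠ ⊤ := by
    have e5 : ∀ k, μ (A k) = ENNReal.ofReal (μ.real (A k)) := fun k =>
      (ofReal_measureReal (measure_ne_top μ _)).symm
    simp_rw [e5]
    exact hsumA.tsum_ofReal_ne_top
  have hBC := ae_eventually_notMem htsum
  have hrat : ∀ᵐ x ∂μ, x ∈ Rat' := by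
    filter_upwards [hBC] with x hx
    obtain ⟨k0, hk0⟩ := eventually_atTop.mp hx
    apply rational_of_close (fun k => n (N k)) N k0 hN1 hN2 (fun k => (hn (N k)).1)
      (fun k => (hn (N k)).2) x
    intro k hk
    have := hk0 k hk
    simp only [hA, Set.mem_ofPred_eq, not_le] at this
    exact this
  have hzero : μ Rat' = 0 := by
    have : Rat' = ⋃ y ∈ Rat', {y} := by simp
    rw [this]
    exact (measure_biUnion_null_iff rat_countable).mpr fun y _ => hat y
  have h1 : μ Rat'ᶜ = 0 := by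
    rw [ae_iff] at hrat
    exact hrat
  have h2 : μ Set.univ = 0 := by
    rw [← Set.union_compl_self Rat']
    exact measure_union_null hzero h1
  rw [measure_univ] at h2
  exact one_ne_zero h2

end Pool.Agent.H261R2.FU
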