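import Mathlib
import Pool.Agent.H261R2.FU.Dir2

set_option autoImplicit false

open MeasureTheory Real Filter

namespace Pool.Agent.H261R2.FU

lemma four_norm_le (m : ℤ) (x : UnitAddCircle) : 4 * ‖m • x‖ ≤ ‖fourier m x - 1‖ := by
  obtain ⟨y, rfl⟩ := QuotientAddGroup.mk_surjective x
  change 4 * ‖m • ((y : ℝ) : UnitAddCircle)‖ ≤ ‖fourier m ((y : ℝ) : UnitAddCircle) - 1‖
  have e1 : m • ((y : ℝ) : UnitAddCircle) = ((m * y : ℝ) : UnitAddCircle) := by
    rw [← AddCircle.coe_zsmul, zsmul_eq_mul]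
  rw [e1, norm_coe_eq, fourier_coe_apply]
  set t : ℝ := (m : ℝ) * y with ht
  have e2 : (2 * (π : ℂ) * Complex.I * (m : ℂ) * (y : ℂ) / ((1 : ℝ) : ℂ)) =
      Complex.I * ((2 * π * t : ℝ) : ℂ) := by
    rw [ht]; push_cast; ring
  rw [e2, Complex.norm_exp_I_mul_ofReal_sub_one]
  have e3 : 2 * π * t / 2 = π * t := by ring
  rw [e3, norm_mul, Real.norm_eq_abs, Real.norm_eq_abs, abs_of_pos (by norm_num : (0 : ℝ) < 2)]
  have e4 : |sin (π * t)| = |sin (π * (t - round t))| := by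
    have : π * (t - round t) = π * t - (round t : ℤ) * π := by ring
    rw [this, Real.sin_sub_int_mul_pi, abs_mul, abs_zpow, abs_neg, abs_one, one_zpow, one_mul]
  rw [e4]
  have h1 : |t - round t| ≤ 1 / 2 := abs_sub_round t
  have h2 : |π * (t - round t)| ≤ π / 2 := by
    rw [abs_mul, abs_of_pos Real.pi_pos]
    have := mul_le_mul_of_nonneg_left h1 Real.pi_pos.le
    linarith
  have h3 := Real.mul_abs_le_abs_sin h2
  rw [abs_mul, abs_of_pos Real.pi_pos] at h3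
  have h4 : 2 / π * (π * |t - round t|) = 2 * |t - round t| := by
    field_simp
  rw [h4] at h3
  linarith

lemma norm_fourier_sub (a b : ℤ) (x : UnitAddCircle) :
    ‖fourier a x - fourier b x‖ = ‖fourier (a - b) x - 1‖ := by
  have h1 : fourier a x = fourier (a - b) x * fourier b x := by
    rw [← fourier_add]; congr 1; ring_nf
  have h2 : fourier a x - fourier b x = (fourier (a - b) x - 1) * fourier b x := by
    rw [h1]; ring
  rw [h2, norm_mul]
  have h3 : ‖fourier b x‖ = 1 := by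
    rw [fourier_apply]; exact Circle.norm_coe _
  rw [h3, mul_one]

lemma norm_natAbs (m : ℤ) (x : UnitAddCircle) : ‖m.natAbs • x‖ = ‖m • x‖ := by
  rcases Int.natAbs_eq m with h | h
  · conv_rhs => rw [h]
    rw [natCast_zsmul]
  · conv_rhs => rw [h]
    rw [neg_smul, norm_neg, natCast_zsmul]

lemma int_sq_cont {μ : Measure UnitAddCircle} [IsProbabilityMeasure μ] {f : UnitAddCircle → ℝ}
    (hf : Continuous f) : Integrable f μ :=
  hf.integrable_of_hasCompactSupport (HasCompactSupport.of_compactSpace _)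

lemma int_le (μ : Measure UnitAddCircle) [IsProbabilityMeasure μ] (a b : ℤ) :
    ∫ x, ‖(a - b).natAbs • x‖ ^ 2 ∂μ ≤ ∫ x, ‖fourier a x - fourier b x‖ ^ 2 ∂μ := by
  apply integral_mono
  · exact int_sq_cont (by fun_prop)
  · exact int_sq_cont (by fun_prop)
  · intro x
    simp only
    rw [norm_natAbs, norm_fourier_sub]
    have h1 := four_norm_le (a - b) x
    have h2 : ‖(a - b) • x‖ ≤ ‖fourier (a - b) x - 1‖ := by
      have := norm_nonneg ((a - b) • x)
      linarith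
    exact pow_le_pow_left₀ (norm_nonneg _) h2 2

/-- infinitely many scales at which all Dirichlet integrals are large -/
theorem dirichlet {μ : Measure UnitAddCircle} {κ : ℝ}
    (h : ∀ n : ℕ → ℕ, (∀ N, 1 ≤ n N ∧ n N ≤ 2 ^ N) →
      ¬ Summable (fun N : ℕ => (N : ℝ) ^ (κ - 1) * ∫ x, ‖n N • x‖ ^ 2 ∂μ))
    (κ' : ℝ) (hκ : κ < κ') (N0 : ℕ) :
    ∃ N, N0 ≤ N ∧ ∀ n : ℕ, 1 ≤ n → n ≤ 2 ^ N → (N : ℝ) ^ (-κ') ≤ ∫ x, ‖n • x‖ ^ 2 ∂μ := by
  by_contra hcon
  push Not at hcon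
  choose! n hn1 hn2 hn3 using hcon
  apply h (fun N => if N0 ≤ N then n N else 1)
  · intro N
    by_cases hN : N0 ≤ N
    · simp only [hN, if_true]
      exact ⟨hn1 N hN, hn2 N hN⟩
    · simp only [hN, if_false]
      exact ⟨le_rfl, Nat.one_le_two_pow⟩
  · have hs : Summable (fun N : ℕ => (N : ℝ) ^ (κ - κ' - 1)) := by
      rw [Real.summable_nat_rpow]
      linarith
    refine (summable_nat_add_iff (N0 + 1)).mp ?_
    refine Summable.of_nonneg_of_le (fun N => ?_) (fun N => ?_)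
      ((summable_nat_add_iff (N0 + 1)).mpr hs)
    · apply mul_nonneg (Real.rpow_nonneg (Nat.cast_nonneg _) _)
      exact integral_nonneg fun x => by positivity
    · have hle : N0 ≤ N + (N0 + 1) := by omega
      simp only [hle, if_true]
      have hpos : (0 : ℝ) < ((N + (N0 + 1) : ℕ) : ℝ) := by
        have : 0 < N + (N0 + 1) := by omega
        exact_mod_cast this
      have h3 := (hn3 (N + (N0 + 1)) hle).le
      calc (((N + (N0 + 1) : ℕ)) : ℝ) ^ (κ - 1) * ∫ x, ‖n (N + (N0 + 1)) • x‖ ^ 2 ∂μ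
          ≤ (((N + (N0 + 1) : ℕ)) : ℝ) ^ (κ - 1) * (((N + (N0 + 1) : ℕ)) : ℝ) ^ (-κ') :=
            mul_le_mul_of_nonneg_left h3 (Real.rpow_nonneg hpos.le _)
        _ = (((N + (N0 + 1) : ℕ)) : ℝ) ^ (κ - κ' - 1) := by
            rw [← Real.rpow_add hpos]; congr 1; ring

/-- infinitely many scales at which the characters are separated -/
theorem separated {p q : ℕ} (hp : 2 ≤ p) (hq : 2 ≤ q) {μ : Measure UnitAddCircle}
    [IsProbabilityMeasure μ] {κ : ℝ} (hκ0 : 0 < κ)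
    (h : ∀ κ' : ℝ, κ < κ' → ∀ N0 : ℕ, ∃ N, N0 ≤ N ∧ ∀ n : ℕ, 1 ≤ n → n ≤ 2 ^ N →
      (N : ℝ) ^ (-κ') ≤ ∫ x, ‖n • x‖ ^ 2 ∂μ)
    (κ' : ℝ) (hκ : κ < κ') (N0 : ℕ) :
    ∃ N, N0 ≤ N ∧ ∀ i j k l : ℕ, i ≤ N → j ≤ N → k ≤ N → l ≤ N → p ^ i * q ^ j ≠ p ^ k * q ^ l →
      (N : ℝ) ^ (-κ') ≤ ∫ x, ‖fourier ((p ^ i * q ^ j : ℕ) : ℤ) x
        - fourier ((p ^ k * q ^ l : ℕ) : ℤ) x‖ ^ 2 ∂μ := by
  set c : ℕ := p * q with hc
  have hc1 : 4 ≤ c := by rw [hc]; nlinarith
  have hcR : (0 : ℝ) < c := by exact_mod_cast (by omega : 0 < c)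
  set κ2 : ℝ := (κ + κ') / 2 with hκ2
  have hκ2a : κ < κ2 := by rw [hκ2]; linarith
  have hκ2b : κ2 < κ' := by rw [hκ2]; linarith
  -- threshold
  have hlim : Tendsto (fun M : ℕ => (M : ℝ) ^ (κ' - κ2)) atTop atTop :=
    (tendsto_rpow_atTop (by linarith)).comp tendsto_natCast_atTop_atTop
  obtain ⟨M0, hM0⟩ := eventually_atTop.mp (hlim.eventually_ge_atTop ((2 * c : ℝ) ^ κ'))
  obtain ⟨M, hM1, hM2⟩ := h κ2 hκ2a (max M0 (2 * c * (N0 + 1)))
  have hMM0 : M0 ≤ M := le_trans (le_max_left _ _) hM1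
  have hMc : 2 * c * (N0 + 1) ≤ M := le_trans (le_max_right _ _) hM1
  refine ⟨M / c, ?_, ?_⟩
  · rw [Nat.le_div_iff_mul_le (by omega)]
    nlinarith
  · intro i j k l hi hj hk hl hne
    set N := M / c with hN
    have hcN : c * N ≤ M := Nat.mul_div_le M c
    have hbase : ∀ u v : ℕ, u ≤ N → v ≤ N → p ^ u * q ^ v ≤ 2 ^ M := by
      intro u v hu hv
      calc p ^ u * q ^ v ≤ p ^ N * q ^ N :=
            Nat.mul_le_mul (Nat.pow_le_pow_right (by omega) hu)
              (Nat.pow_le_pow_right (by omega) hv)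
        _ = c ^ N := by rw [hc, mul_pow]
        _ ≤ (2 ^ c) ^ N := Nat.pow_le_pow_left (Nat.lt_two_pow_self).le _
        _ = 2 ^ (c * N) := by rw [← pow_mul]
        _ ≤ 2 ^ M := Nat.pow_le_pow_right (by norm_num) hcN
    set a : ℕ := p ^ i * q ^ j with ha
    set b : ℕ := p ^ k * q ^ l with hb
    have ha1 := hbase i j hi hj
    have hb1 := hbase k l hk hl
    rw [← ha] at ha1
    rw [← hb] at hb1
    have hn1 : 1 ≤ ((a : ℤ) - b).natAbs := by
      have : (a : ℤ) - b ≠ 0 := by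
        intro h0
        apply hne
        have : (a : ℤ) = b := by linarith
        exact_mod_cast this
      omega
    have hn2 : ((a : ℤ) - b).natAbs ≤ 2 ^ M := by
      have : ((a : ℤ) - b).natAbs ≤ max a b := by omega
      exact this.trans (max_le ha1 hb1)
    have h1 := hM2 _ hn1 hn2
    refine le_trans ?_ (h1.trans (int_le μ a b))
    -- N^{-κ'} ≤ M^{-κ2}
    have hNpos : 1 ≤ N := by
      rw [hN, Nat.le_div_iff_mul_le (by omega)]
      nlinarith
    have hMN : (M : ℝ) ≤ 2 * c * N := by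
      have h2 : M < c * (N + 1) := Nat.lt_mul_div_succ M (by omega)
      have h3 : c * (N + 1) ≤ 2 * c * N := by nlinarith
      exact_mod_cast (by omega : M ≤ 2 * c * N)
    have hMpos : (0 : ℝ) < M := by
      have : 0 < M := by nlinarith
      exact_mod_cast this
    have hNR : (0 : ℝ) < N := by exact_mod_cast hNpos
    have h4 : (2 * c : ℝ) ^ κ' ≤ (M : ℝ) ^ (κ' - κ2) := hM0 M hMM0
    have h5 : (M : ℝ) ^ κ' ≤ (2 * c : ℝ) ^ κ' * (N : ℝ) ^ κ' := by
      rw [← Real.mul_rpow (by positivity) hNR.le]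
      exact Real.rpow_le_rpow hMpos.le hMN (by linarith)
    have h6 : (M : ℝ) ^ (κ' - κ2) = (M : ℝ) ^ κ' * ((M : ℝ) ^ κ2)⁻¹ := by
      rw [Real.rpow_sub hMpos, div_eq_mul_inv]
    rw [Real.rpow_neg hNR.le, Real.rpow_neg hMpos.le]
    have hNk : 0 < (N : ℝ) ^ κ' := Real.rpow_pos_of_pos hNR _
    have hMk : 0 < (M : ℝ) ^ κ' := Real.rpow_pos_of_pos hMpos _
    have hMk2 : 0 < (M : ℝ) ^ κ2 := Real.rpow_pos_of_pos hMpos _
    have h2c : 0 < (2 * c : ℝ) ^ κ' := Real.rpow_pos_of_pos (by positivity) _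
    rw [h6, ← div_eq_mul_inv, le_div_iff₀ hMk2] at h4
    apply inv_anti₀ hMk2
    by_contra hlt
    push Not at hlt
    have h7 : (2 * c : ℝ) ^ κ' * (N : ℝ) ^ κ' < (2 * c : ℝ) ^ κ' * (M : ℝ) ^ κ2 :=
      mul_lt_mul_of_pos_left hlt h2c
    linarith

lemma indep {p q : ℕ} (hp : 2 ≤ p) (hq : 2 ≤ q) (hirr : Irrational (log p / log q))
    {i j k l : ℕ} (h : p ^ i * q ^ j = p ^ k * q ^ l) : i = k ∧ j = l := by
  have hpR : (0 : ℝ) < p := by exact_mod_cast (by omega : 0 < p)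
  have hqR : (0 : ℝ) < q := by exact_mod_cast (by omega : 0 < q)
  have hlp : 0 < log p := log_pos (by exact_mod_cast (by omega : 1 < p))
  have hlq : 0 < log q := log_pos (by exact_mod_cast (by omega : 1 < q))
  have h1 : (p : ℝ) ^ i * (q : ℝ) ^ j = (p : ℝ) ^ k * (q : ℝ) ^ l := by exact_mod_cast h
  have h2 := congrArg Real.log h1
  rw [Real.log_mul (by positivity) (by positivity), Real.log_mul (by positivity) (by positivity),
    Real.log_pow, Real.log_pow, Real.log_pow, Real.log_pow] at h2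
  have h3 : ((i : ℝ) - k) * log p = ((l : ℝ) - j) * log q := by linarith
  by_cases hik : i = k
  · refine ⟨hik, ?_⟩
    subst hik
    rw [sub_self, zero_mul] at h3
    have h4 : (l : ℝ) - j = 0 := by
      rcases mul_eq_zero.mp h3.symm with h5 | h5
      · exact h5
      · exact absurd h5 hlq.ne'
    have h5 : (j : ℝ) = l := by linarith
    exact_mod_cast h5
  · exfalso
    have hne : (i : ℝ) - k ≠ 0 := by
      intro h0
      apply hik
      have : (i : ℝ) = k := by linarith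
      exact_mod_cast this
    apply hirr
    refine ⟨(((l : ℤ) - j : ℤ) : ℚ) / (((i : ℤ) - k : ℤ) : ℚ), ?_⟩
    push_cast
    rw [div_eq_div_iff hne hlq.ne']
    linarith

/-- the orbit has large box dimension -/
theorem dimension {p q : ℕ} (hp : 2 ≤ p) (hq : 2 ≤ q) (hirr : Irrational (log p / log q))
    {μ : Measure UnitAddCircle} [IsProbabilityMeasure μ] {κ : ℝ} (hκ0 : 0 < κ)
    (h : ∀ κ' : ℝ, κ < κ' → ∀ N0 : ℕ, ∃ N, N0 ≤ N ∧ ∀ i j k l : ℕ, i ≤ N → j ≤ N → k ≤ N →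
      l ≤ N → p ^ i * q ^ j ≠ p ^ k * q ^ l →
      (N : ℝ) ^ (-κ') ≤ ∫ x, ‖fourier ((p ^ i * q ^ j : ℕ) : ℤ) x
        - fourier ((p ^ k * q ^ l : ℕ) : ℤ) x‖ ^ 2 ∂μ)
    (D C : ℝ) (hD0 : 0 < D) (hD : D * κ < 4) :
    ∃ ε : ℝ, 0 < ε ∧ ε ≤ 1 ∧ ∀ S : Finset ℤ, (∀ i j : ℕ, ∃ m ∈ S,
      ∫ x, ‖fourier ((p ^ i * q ^ j : ℕ) : ℤ) x - fourier m x‖ ^ 2 ∂μ ≤ ε ^ 2) →
      C * ε ^ (-D) < S.card := by
  set κ' : ℝ := (κ + 4 / D) / 2 with hκ'
  have h4D : κ < 4 / D := by rw [lt_div_iff₀ hD0]; linarith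
  have ha : κ < κ' := by rw [hκ']; linarith
  have hb : κ' < 4 / D := by rw [hκ']; linarith
  have hb' : D * κ' < 4 := by
    rw [lt_div_iff₀ hD0] at hb; linarith
  have hκ'0 : 0 < κ' := by linarith
  -- threshold
  have hexp : 0 < 2 - D * κ' / 2 := by linarith
  have hlim : Tendsto (fun M : ℕ => (M : ℝ) ^ (2 - D * κ' / 2)) atTop atTop :=
    (tendsto_rpow_atTop hexp).comp tendsto_natCast_atTop_atTop
  obtain ⟨M0, hM0⟩ := eventually_atTop.mp (hlim.eventually_ge_atTop (|C| * 3 ^ D))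
  obtain ⟨N, hN1, hN2⟩ := h κ' ha (max M0 1)
  have hNM0 : M0 ≤ N := le_trans (le_max_left _ _) hN1
  have hNpos : 1 ≤ N := le_trans (le_max_right _ _) hN1
  have hNR : (1 : ℝ) ≤ N := by exact_mod_cast hNpos
  have hNR0 : (0 : ℝ) < N := by linarith
  set ε : ℝ := (N : ℝ) ^ (-(κ' / 2)) / 3 with hε
  have hNk : 0 < (N : ℝ) ^ (-(κ' / 2)) := Real.rpow_pos_of_pos hNR0 _
  have hε0 : 0 < ε := by positivity
  refine ⟨ε, hε0, ?_, ?_⟩
  · have : (N : ℝ) ^ (-(κ' / 2)) ≤ 1 :=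
      Real.rpow_le_one_of_one_le_of_nonpos hNR (by linarith)
    rw [hε]; linarith
  · intro S hS
    choose m hmS hm using hS
    -- the map is injective on [0,N]^2
    have hinj : Set.InjOn (fun u : ℕ × ℕ => m u.1 u.2)
        (↑(Finset.range (N + 1) ×ˢ Finset.range (N + 1)) : Set (ℕ × ℕ)) := by
      intro u hu v hv huv
      rw [Finset.mem_coe, Finset.mem_product, Finset.mem_range, Finset.mem_range] at hu hv
      by_contra hne
      have hne' : p ^ u.1 * q ^ u.2 ≠ p ^ v.1 * q ^ v.2 := by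
        intro heq
        apply hne
        obtain ⟨e1, e2⟩ := indep hp hq hirr heq
        exact Prod.ext e1 e2
      have h1 := hN2 u.1 u.2 v.1 v.2 (by omega) (by omega) (by omega) (by omega) hne'
      have h2 := hm u.1 u.2
      have h3 := hm v.1 v.2
      simp only at huv
      rw [← huv] at h3
      have h4 : ∫ x, ‖fourier ((p ^ u.1 * q ^ u.2 : ℕ) : ℤ) x
          - fourier ((p ^ v.1 * q ^ v.2 : ℕ) : ℤ) x‖ ^ 2 ∂μ ≤
          ∫ x, (2 * ‖fourier ((p ^ u.1 * q ^ u.2 : ℕ) : ℤ) x - fourier (m u.1 u.2) x‖ ^ 2 +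
            2 * ‖fourier ((p ^ v.1 * q ^ v.2 : ℕ) : ℤ) x - fourier (m u.1 u.2) x‖ ^ 2) ∂μ := by
        apply integral_mono
        · exact int_sq_cont (by fun_prop)
        · exact int_sq_cont (by fun_prop)
        · intro x
          simp only
          set A := fourier ((p ^ u.1 * q ^ u.2 : ℕ) : ℤ) x
          set B := fourier ((p ^ v.1 * q ^ v.2 : ℕ) : ℤ) x
          set M := fourier (m u.1 u.2) x
          have e : A - B = (A - M) - (B - M) := by ring
          have h5 : ‖A - B‖ ≤ ‖A - M‖ + ‖B - M‖ := by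
            rw [e]; exact norm_sub_le _ _
          have h6 := norm_nonneg (A - B)
          nlinarith [sq_nonneg (‖A - M‖ - ‖B - M‖), norm_nonneg (A - M), norm_nonneg (B - M)]
      rw [integral_add (int_sq_cont (by fun_prop)) (int_sq_cont (by fun_prop)),
        integral_const_mul, integral_const_mul] at h4
      have h5 : (N : ℝ) ^ (-κ') ≤ 4 * ε ^ 2 := by linarith
      have h6 : ε ^ 2 = (N : ℝ) ^ (-κ') / 9 := by
        rw [hε, div_pow]
        have : ((N : ℝ) ^ (-(κ' / 2))) ^ 2 = (N : ℝ) ^ (-κ') := by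
          rw [← Real.rpow_natCast, ← Real.rpow_mul hNR0.le]
          congr 1
          push_cast; ring
        rw [this]; norm_num
      have h7 : 0 < (N : ℝ) ^ (-κ') := Real.rpow_pos_of_pos hNR0 _
      rw [h6] at h5
      linarith
    have hcard : (N + 1) * (N + 1) ≤ S.card := by
      have h1 := Finset.card_le_card_of_injOn (s := Finset.range (N + 1) ×ˢ Finset.range (N + 1))
        (t := S) (fun u : ℕ × ℕ => m u.1 u.2) (fun u _ => hmS u.1 u.2) hinj
      rwa [Finset.card_product, Finset.card_range] at h1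
    have hcardR : ((N : ℝ) + 1) * (N + 1) ≤ S.card := by exact_mod_cast hcard
    have h8 : ε ^ (-D) = (N : ℝ) ^ (D * κ' / 2) * 3 ^ D := by
      rw [hε, Real.div_rpow hNk.le (by norm_num), ← Real.rpow_mul hNR0.le, Real.rpow_neg
        (by norm_num : (0 : ℝ) ≤ 3), div_inv_eq_mul]
      congr 2
      ring
    have h9 := hM0 N hNM0
    have h10 : (N : ℝ) ^ (2 - D * κ' / 2) = (N : ℝ) ^ 2 / (N : ℝ) ^ (D * κ' / 2) := by
      rw [Real.rpow_sub hNR0]; norm_num
    have h11 : 0 < (N : ℝ) ^ (D * κ' / 2) := Real.rpow_pos_of_pos hNR0 _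
    rw [h10, le_div_iff₀ h11] at h9
    calc C * ε ^ (-D) ≤ |C| * ε ^ (-D) :=
          mul_le_mul_of_nonneg_right (le_abs_self _) (Real.rpow_nonneg hε0.le _)
      _ = |C| * 3 ^ D * (N : ℝ) ^ (D * κ' / 2) := by rw [h8]; ring
      _ ≤ (N : ℝ) ^ 2 := h9
      _ < ((N : ℝ) + 1) * (N + 1) := by nlinarith
      _ ≤ S.card := hcardR

end Pool.Agent.H261R2.FU
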